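import Mathlib
import Pool.Agent.Helper30.THC.Part2
import Pool.Agent.Helper72.TH.Final

/-!
# MP_b15c9e_ag: endomorphisms with tame invariant sets

Endomorphisms of projective space of degree at least two, given by forms; closed sets are given by
sets of forms.
-/

set_option autoImplicit false

namespace Pool.Agent.Helper30.THR

open MvPolynomial

variable {N : ℕ}

/-- The forms `f` of degree `d ≥ 2` have no common zero, so define an endomorphism of `P^N`. -/
def Endomorphism (d : ℕ) (f : Fin (N + 1) → MvPolynomial (Fin (N + 1)) ℂ) : Prop :=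
  2 ≤ d ∧ (∀ i, (f i).IsHomogeneous d) ∧
    ∀ x : Fin (N + 1) → ℂ, (∀ i, eval x (f i) = 0) → x = 0

/-- The orbit of `a`: the `n`-th iterate of the map given by the forms `f`, at `a`. -/
noncomputable def orbit (f : Fin (N + 1) → MvPolynomial (Fin (N + 1)) ℂ)
    (a : Fin (N + 1) → ℂ) (n : ℕ) : Fin (N + 1) → ℂ :=
  (fun x i => eval x (f i))^[n] a

/-- The point `x` is critical: the Jacobian determinant of `f` vanishes. -/
def Critical (f : Fin (N + 1) → MvPolynomial (Fin (N + 1)) ℂ) (x : Fin (N + 1) → ℂ) : Prop :=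
  (Matrix.of fun i j => eval x (pderiv j (f i))).det = 0

/-- The set `S` consists of forms. -/
def Forms (S : Set (MvPolynomial (Fin (N + 1)) ℂ)) : Prop := ∀ g ∈ S, ∃ e : ℕ, g.IsHomogeneous e

/-- The point `x` is in the closed set defined by the forms in `S`. -/
def On (S : Set (MvPolynomial (Fin (N + 1)) ℂ)) (x : Fin (N + 1) → ℂ) : Prop :=
  ∀ g ∈ S, eval x g = 0

/-- Closed sets `Z 0, ..., Z k` with `Φ(Z i) ⊆ Z i`, with `Φ(x) ∈ Z (i + 1)` for all `x ∈ Z i`
which are critical or in the set `E`, and with `Z k` empty. -/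
structure Chain (f : Fin (N + 1) → MvPolynomial (Fin (N + 1)) ℂ) (E : Set (Fin (N + 1) → ℂ))
    (k : ℕ) (Z : ℕ → Set (MvPolynomial (Fin (N + 1)) ℂ)) : Prop where
  forms : ∀ i ≤ k, Forms (Z i)
  invariant : ∀ i < k, ∀ x, x ≠ 0 → On (Z i) x → On (Z i) (orbit f x 1)
  down : ∀ i < k, ∀ x, x ≠ 0 → On (Z i) x → Critical f x ∨ x ∈ E → On (Z (i + 1)) (orbit f x 1)
  empty : ∀ x, x ≠ 0 → ¬ On (Z k) x

/-- There is a hypersurface `E` with `Φ(E) ⊆ Z 0` for a chain with the exceptional set `E`. -/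
def TameA (f : Fin (N + 1) → MvPolynomial (Fin (N + 1)) ℂ) : Prop :=
  ∃ (G : MvPolynomial (Fin (N + 1)) ℂ) (r k : ℕ) (Z : ℕ → Set (MvPolynomial (Fin (N + 1)) ℂ)),
    1 ≤ r ∧ G.IsHomogeneous r ∧ Chain f {x | eval x G = 0} k Z ∧
      ∀ x, x ≠ 0 → eval x G = 0 → On (Z 0) (orbit f x 1)

/-- There is a hypersurface `H` and a number `s` with `Φ^s(H) ⊆ Z 0` for a chain without
exceptional set. -/
def TameB (f : Fin (N + 1) → MvPolynomial (Fin (N + 1)) ℂ) : Prop :=
  ∃ (G : MvPolynomial (Fin (N + 1)) ℂ) (r k s : ℕ) (Z : ℕ → Set (MvPolynomial (Fin (N + 1)) ℂ)),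
    1 ≤ r ∧ G.IsHomogeneous r ∧ Chain f ∅ k Z ∧
      ∀ x, x ≠ 0 → eval x G = 0 → On (Z 0) (orbit f x s)

/-- The coefficients are algebraic numbers. -/
def Alg (g : MvPolynomial (Fin (N + 1)) ℂ) : Prop := ∀ m, IsAlgebraic ℚ (g.coeff m)

/-- Every infinite closed subset of the closed set `V` contains a point `p` with `Φ^s(p) ∈ Z 0` for
a number `s` and a chain over the algebraic numbers. -/
def TameC (f : Fin (N + 1) → MvPolynomial (Fin (N + 1)) ℂ)
    (V : Set (MvPolynomial (Fin (N + 1)) ℂ)) : Prop :=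
  ∀ T, Forms T → (∀ x, On T x → On V x) →
    (∃ p : ℕ → Fin (N + 1) → ℂ, (∀ n, p n ≠ 0) ∧
      (∀ n m, n ≠ m → ¬ ∃ c : ℂ, p n = c • p m) ∧ ∀ n, On T (p n)) →
    ∃ p, p ≠ 0 ∧ On T p ∧ ∃ (k s : ℕ) (Z : ℕ → Set (MvPolynomial (Fin (N + 1)) ℂ)),
      Chain f ∅ k Z ∧ (∀ i ≤ k, ∀ g ∈ Z i, Alg g) ∧ On (Z 0) (orbit f p s)

/-- The closed set defined by the forms in `S` has dimension at most one: the Krull dimension of
its homogeneous coordinate ring is at most two. -/
def DimLeOne (S : Set (MvPolynomial (Fin (N + 1)) ℂ)) : Prop :=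
  ringKrullDim (MvPolynomial (Fin (N + 1)) ℂ ⧸ Ideal.span S) ≤ 2

/-! ### The forms multiplied by the variables -/

/-- The forms of `S` multiplied by the variables. -/
def up (S : Set (MvPolynomial (Fin (N + 1)) ℂ)) : Set (MvPolynomial (Fin (N + 1)) ℂ) :=
  {h | ∃ g ∈ S, ∃ j, h = X j * g}

lemma up_forms {S : Set (MvPolynomial (Fin (N + 1)) ℂ)} (hS : Forms S) : Forms (up S) := by
  rintro _ ⟨g, hg, j, rfl⟩
  obtain ⟨e, he⟩ := hS g hg
  exact ⟨1 + e, (isHomogeneous_X ℂ j).mul he⟩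

lemma up_of_on {S : Set (MvPolynomial (Fin (N + 1)) ℂ)} {x : Fin (N + 1) → ℂ} (h : On S x) :
    On (up S) x := by
  rintro _ ⟨g, hg, j, rfl⟩
  rw [map_mul, h g hg, mul_zero]

lemma up_zero (S : Set (MvPolynomial (Fin (N + 1)) ℂ)) : On (up S) (0 : Fin (N + 1) → ℂ) := by
  rintro _ ⟨g, hg, j, rfl⟩
  rw [map_mul, eval_X, Pi.zero_apply, zero_mul]

lemma on_of_up {S : Set (MvPolynomial (Fin (N + 1)) ℂ)} {x : Fin (N + 1) → ℂ} (hx : x ≠ 0)
    (h : On (up S) x) : On S x := by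
  intro g hg
  obtain ⟨j, hj⟩ := Function.ne_iff.1 hx
  have h1 := h _ ⟨g, hg, j, rfl⟩
  rw [map_mul, eval_X, mul_eq_zero] at h1
  exact h1.resolve_left hj

lemma alg_up {S : Set (MvPolynomial (Fin (N + 1)) ℂ)} (hS : ∀ g ∈ S, Alg g) :
    ∀ g ∈ up S, Alg g := by
  classical
  rintro _ ⟨g, hg, j, rfl⟩ m
  rw [coeff_X_mul']
  split_ifs
  · exact hS g hg _
  · exact isAlgebraic_zero

lemma zero_map {d : ℕ} {f : Fin (N + 1) → MvPolynomial (Fin (N + 1)) ℂ} (hf : Endomorphism d f) :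
    (fun i => eval (0 : Fin (N + 1) → ℂ) (f i)) = 0 := by
  funext i
  have h2 := Pool.Agent.Helper38.TQ.eval_smul_hom (hf.2.1 i) 0 0
  rw [zero_smul, zero_pow (by have := hf.1; omega), zero_mul] at h2
  exact h2

lemma critical_iff (f : Fin (N + 1) → MvPolynomial (Fin (N + 1)) ℂ) (x : Fin (N + 1) → ℂ) :
    eval x (Pool.Agent.Helper30.TKN.jf f) = 0 ↔ Critical f x := by
  rw [Pool.Agent.Helper30.TKN.eval_jf]
  rfl

lemma chain_up {d k : ℕ} {f : Fin (N + 1) → MvPolynomial (Fin (N + 1)) ℂ}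
    (hf : Endomorphism d f) {E : Set (Fin (N + 1) → ℂ)}
    {Z : ℕ → Set (MvPolynomial (Fin (N + 1)) ℂ)} (hZ : Chain f E k Z)
    {q : MvPolynomial (Fin (N + 1)) ℂ} (hq : ∀ x, eval x q = 0 → Critical f x ∨ x ∈ E) :
    Pool.Agent.Helper30.THC.ChainC f q k fun i => up (Z i) := by
  refine ⟨fun i hi => up_forms (hZ.forms i hi), fun i hi x hx => ?_, fun i hi x hx hqx => ?_,
    fun x hx => ?_⟩
  · by_cases h0 : x = 0
    · rw [h0, zero_map hf]
      exact up_zero _
    · exact up_of_on (hZ.invariant i hi x h0 (on_of_up h0 hx))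
  · by_cases h0 : x = 0
    · rw [h0, zero_map hf]
      exact up_zero _
    · exact up_of_on (hZ.down i hi x h0 (on_of_up h0 hx) (hq x hqx))
  · by_contra h0
    exact hZ.empty x h0 (on_of_up h0 hx)

lemma chain_up_alg {d k : ℕ} {f : Fin (N + 1) → MvPolynomial (Fin (N + 1)) ℂ}
    (hf : Endomorphism d f) {Z : ℕ → Set (MvPolynomial (Fin (N + 1)) ℂ)} (hZ : Chain f ∅ k Z)
    (hZa : ∀ i ≤ k, ∀ g ∈ Z i, Alg g) :
    Pool.Agent.Helper72.TH.ChainS f (Pool.Agent.Helper30.TKN.jf f) k fun i => up (Z i) := by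
  have h1 := chain_up hf hZ (q := Pool.Agent.Helper30.TKN.jf f)
    fun x hx => Or.inl ((critical_iff f x).1 hx)
  exact ⟨fun i hi g hg => ⟨h1.form i hi g hg, alg_up (hZa i hi) g hg⟩, h1.inv, h1.down, h1.empty⟩

lemma orbit_zero {d : ℕ} {f : Fin (N + 1) → MvPolynomial (Fin (N + 1)) ℂ}
    (hf : Endomorphism d f) (s : ℕ) : orbit f 0 s = 0 := by
  induction s with
  | zero => rfl
  | succ s ih =>
    have h1 : orbit f 0 (s + 1) = fun i => eval (orbit f 0 s) (f i) :=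
      Function.iterate_succ_apply' (fun (x : Fin (N + 1) → ℂ) i => eval x (f i)) s 0
    rw [h1, ih]
    exact zero_map hf

/-- **Theorem.** Let `Φ` be an endomorphism of `P^N` over `ℂ` of degree `d ≥ 2`, `a` a point and
`V` a closed set, over `ℂ`. Suppose that (1) `Φ` satisfies `TameA`; or that (2) `Φ` satisfies
`TameB`, and `V` has dimension at most one or `N = 2`; or that (3) `Φ` and `a` are algebraic, `V`
has dimension at most one and `TameC` holds. Then the set of all `n` with `Φ^n(a) ∈ V` is a finite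
union of arithmetic progressions. -/
theorem result (N d : ℕ) (f : Fin (N + 1) → MvPolynomial (Fin (N + 1)) ℂ) (hf : Endomorphism d f)
    (a : Fin (N + 1) → ℂ) (ha : a ≠ 0) (V : Set (MvPolynomial (Fin (N + 1)) ℂ)) (hV : Forms V)
    (h : TameA f ∨ (TameB f ∧ (DimLeOne V ∨ N = 2)) ∨
      ((∀ i, Alg (f i)) ∧ (∀ i, IsAlgebraic ℚ (a i)) ∧ DimLeOne V ∧ TameC f V)) :
    ∃ T : Finset (ℕ × ℕ), {n : ℕ | On V (orbit f a n)} =
      {n : ℕ | ∃ q ∈ T, ∃ m : ℕ, n = q.1 * m + q.2} := by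
  have hf' : Pool.Agent.Helper38.TQ.IsEndo d f := ⟨hf.1, hf.2.1, hf.2.2⟩
  rcases h with ⟨G, r, k, Z, hr, hG, hZ, hGZ⟩ | ⟨⟨G, r, k, s, Z, hr, hG, hZ, hGZ⟩, hdim⟩ |
    ⟨hfa, haa, hdim, hT⟩
  · refine Pool.Agent.Helper30.THC.partOne hf' hr hG (Z := fun i => up (Z i))
      (chain_up hf hZ fun x hx => ?_) (fun x hx => ?_) ha hV
    · rw [map_mul, mul_eq_zero] at hx
      exact hx.imp_left (critical_iff f x).1
    · by_cases h0 : x = 0
      · rw [h0, zero_map hf]
        exact up_zero _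
      · exact up_of_on (hGZ x h0 hx)
  · have hc := chain_up hf hZ (q := Pool.Agent.Helper30.TKN.jf f)
      fun x hx => Or.inl ((critical_iff f x).1 hx)
    have hs : ∀ x : Fin (N + 1) → ℂ, eval x G = 0 →
        ∀ g ∈ up (Z 0), eval (Pool.Agent.Helper36.iter f x s) g = 0 := by
      intro x hx
      have h1 : Pool.Agent.Helper36.iter f x s = orbit f x s := rfl
      rw [h1]
      by_cases h0 : x = 0
      · rw [h0, orbit_zero hf]
        exact up_zero _
      · exact up_of_on (hGZ x h0 hx)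
    rcases hdim with hdim | rfl
    · exact Pool.Agent.Helper30.THC.partTwo hf' hr hG hc hs ha hV hdim
    · exact Pool.Agent.Helper30.THC.partTwo_plane hf' hr hG hc hs ha hV
  · by_cases hinf : {n : ℕ | On V (orbit f a n)}.Infinite
    · refine Pool.Agent.Helper72.TH.final2 hf' hfa ha one_ne_zero
        (fun i => by rw [one_mul]; exact haa i) hV
        (Pool.Agent.Helper38.TQ.curveSet_of_krull hV hdim) ?_ hinf hV
      rintro T hTf hTV ⟨p, hp0, hpp, hpT⟩
      have hpp' : ∀ n m, n ≠ m → ¬ ∃ c : ℂ, p n = c • p m := by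
        rintro n m hnm ⟨c, hc⟩
        have hc0 : c ≠ 0 := by
          rintro rfl
          rw [zero_smul] at hc
          exact hp0 n hc
        exact hpp m n (Ne.symm hnm) ⟨c, hc0, hc⟩
      obtain ⟨p', hp', hpT', k, s, Z, hZ, hZa, hps⟩ := hT T hTf hTV ⟨p, hp0, hpp', hpT⟩
      exact ⟨p', hp', hpT', k, fun i => up (Z i), chain_up_alg hf hZ hZa, s, up_of_on hps⟩
    · rw [Set.not_infinite] at hinf
      refine ⟨hinf.toFinset.image fun n => (0, n), ?_⟩
      ext n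
      simp only [Set.mem_ofPred_eq, Finset.mem_image, Set.Finite.mem_toFinset]
      constructor
      · intro hn
        exact ⟨(0, n), ⟨n, hn, rfl⟩, 0, by simp⟩
      · rintro ⟨_, ⟨m, hm, rfl⟩, l, rfl⟩
        simpa using hm

end Pool.Agent.Helper30.THR
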